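import Pool.Agent.Lib.Burnside.Rep

/-!
# Burnside's `p ^ a * q ^ b` theorem
-/

set_option autoImplicit false

namespace Pool.Burnside

open Matrix Subgroup

/-- `-1 / p` is not an algebraic integer -/
lemma not_integral {p : ℕ} (hp : p.Prime) {β : ℂ} (hβ : IsIntegral ℤ β)
    (h : 1 + (p : ℂ) * β = 0) : False := by
  have hp0 : (p : ℂ) ≠ 0 := by exact_mod_cast hp.ne_zero
  have hpQ : (p : ℚ) ≠ 0 := by exact_mod_cast hp.ne_zero
  have h1 : β = algebraMap ℚ ℂ (-1 / p) := by
    have h2 : algebraMap ℚ ℂ (-1 / p) = -1 / (p : ℂ) := by simp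
    rw [h2, eq_div_iff hp0]
    linear_combination h
  rw [h1, isIntegral_algebraMap_iff (algebraMap ℚ ℂ).injective] at hβ
  obtain ⟨m, hm⟩ := IsIntegrallyClosed.isIntegral_iff.mp hβ
  have h3 : (m : ℚ) * p = -1 := by
    have h4 : (m : ℚ) = -1 / p := hm
    rw [h4, div_mul_cancel₀ _ hpQ]
  have h5 : m * (p : ℤ) = -1 := by exact_mod_cast h3
  have h6 : (p : ℤ) ∣ 1 := ⟨-m, by linarith⟩
  have h7 : p ∣ 1 := by exact_mod_cast h6
  exact hp.one_lt.ne' (Nat.dvd_one.mp h7)

/-- **Burnside's lemma**: a finite simple group has no conjugacy class of prime power size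
greater than one. -/
theorem no_prime_power_class {S : Type*} [Group S] [Finite S] [IsSimpleGroup S] (g : S)
    (s : Finset S) (hs : ∀ x, x ∈ s ↔ IsConj g x) {p a : ℕ} (hp : p.Prime) (ha : 0 < a)
    (hcard : s.card = p ^ a) : False := by
  classical
  obtain ⟨m, d, M, hd0, hsum, hint, i₀, hi₀d, hi₀, hother⟩ := exists_reps S
  have hn : Nat.card S ≠ 0 := Nat.card_pos.ne'
  have hpow : ∀ i (h : S), M i h ^ Nat.card S = 1 := by
    intro i h
    rw [← map_pow, pow_card_eq_one', map_one]
  have hcard1 : s.card ≠ 1 := by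
    rw [hcard]
    exact (Nat.one_lt_pow ha.ne' hp.one_lt).ne'
  have hg1 : g ≠ 1 := by
    rintro rfl
    apply hcard1
    rw [Finset.card_eq_one]
    refine ⟨1, ?_⟩
    ext x
    rw [hs, Finset.mem_singleton, isConj_one_right]
  have hsconj : ∀ h, ∀ x ∈ s, h * x * h⁻¹ ∈ s := by
    intro h x hx
    rw [hs] at hx ⊢
    exact hx.trans (isConj_iff.mpr ⟨h, rfl⟩)
  -- choose a good representation
  obtain ⟨i, hi, hpd, htr⟩ : ∃ i, i ≠ i₀ ∧ ¬ p ∣ d i ∧ (M i g).trace ≠ 0 := by
    by_contra hcon
    push Not at hcon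
    have h1 := hsum g hg1
    have hkey : (d i₀ : ℂ) * (M i₀ g).trace = 1 := by
      rw [hi₀ g, Matrix.trace_one, Fintype.card_fin, hi₀d]; simp
    rw [← Finset.add_sum_erase Finset.univ _ (Finset.mem_univ i₀), hkey] at h1
    have h2 : ∑ i ∈ Finset.univ.erase i₀, (d i : ℂ) * (M i g).trace =
        (p : ℂ) * ∑ i ∈ Finset.univ.erase i₀, ((d i / p : ℕ) : ℂ) * (M i g).trace := by
      rw [Finset.mul_sum]
      apply Finset.sum_congr rfl
      intro i hi
      by_cases hpd : p ∣ d i
      · have h3 : (d i : ℂ) = (p : ℂ) * ((d i / p : ℕ) : ℂ) := by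
          exact_mod_cast (Nat.mul_div_cancel' hpd).symm
        linear_combination (M i g).trace * h3
      · rw [hcon i (Finset.ne_of_mem_erase hi) hpd]; simp
    rw [h2] at h1
    apply not_integral hp _ h1
    apply IsIntegral.sum
    intro i _
    apply IsIntegral.mul
    · exact isIntegral_algebraMap (R := ℤ) (x := ((d i / p : ℕ) : ℤ))
    · exact trace_integral hn _ (hpow i g)
  obtain ⟨ω, hω, hωs⟩ := hint i s hsconj
  have htrace : ((p ^ a : ℕ) : ℂ) * (M i g).trace = (d i : ℂ) * ω := by
    have h1 := congrArg Matrix.trace hωs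
    rw [Matrix.trace_sum] at h1
    have h2 : ∀ x ∈ s, (M i x).trace = (M i g).trace := by
      intro x hx
      rw [hs] at hx
      obtain ⟨h, rfl⟩ := isConj_iff.mp hx
      rw [map_mul, map_mul, Matrix.trace_mul_cycle, ← map_mul, inv_mul_cancel, map_one, one_mul]
    rw [Finset.sum_congr rfl h2, Finset.sum_const, hcard, nsmul_eq_mul] at h1
    rw [h1]
    have h3 : (algebraMap ℂ (Matrix (Fin (d i)) (Fin (d i)) ℂ)) ω =
        ω • (1 : Matrix (Fin (d i)) (Fin (d i)) ℂ) := Algebra.algebraMap_eq_smul_one ω
    rw [h3, Matrix.trace_smul, Matrix.trace_one, Fintype.card_fin, smul_eq_mul, mul_comm]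
  have hcop : Nat.Coprime (p ^ a) (d i) :=
    Nat.Coprime.pow_left a ((Nat.Prime.coprime_iff_not_dvd hp).mpr hpd)
  obtain ⟨α, hα⟩ := scalar_of_coprime hn (hd0 i) (M i g) (hpow i g) hcop hω htrace htr
  -- the kernel
  have hker : (M i).ker = ⊥ := by
    rcases (inferInstance : (M i).ker.Normal).eq_bot_or_eq_top with h | h
    · exact h
    · exfalso
      obtain ⟨x, hx⟩ := hother i hi
      apply hx
      have : x ∈ (M i).ker := by rw [h]; trivial
      exact this
  have hcomm : ∀ x : S, x * g * x⁻¹ = g := by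
    intro x
    have h1 : M i (x * g * x⁻¹ * g⁻¹) = 1 := by
      rw [map_mul, map_mul, map_mul, hα]
      have h2 : M i x * (algebraMap ℂ (Matrix (Fin (d i)) (Fin (d i)) ℂ)) α * M i x⁻¹ =
          M i g := by
        rw [← Algebra.commutes, mul_assoc, ← map_mul, mul_inv_cancel, map_one, mul_one, hα]
      rw [h2, ← map_mul, mul_inv_cancel, map_one]
    have h3 : x * g * x⁻¹ * g⁻¹ ∈ (M i).ker := h1
    rw [hker, mem_bot] at h3
    exact mul_inv_eq_one.mp h3
  apply hcard1
  rw [Finset.card_eq_one]
  refine ⟨g, ?_⟩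
  ext x
  rw [hs, Finset.mem_singleton, isConj_iff]
  constructor
  · rintro ⟨c, hc⟩
    rw [← hc, hcomm]
  · rintro rfl
    exact ⟨1, by simp⟩

/-- the size of a conjugacy class -/
lemma card_class {S : Type*} [Group S] (g : S) (s : Finset S)
    (hs : ∀ x, x ∈ s ↔ IsConj g x) : s.card = (centralizer {g}).index := by
  classical
  have e : S ⧸ centralizer {g} ≃ s := by
    refine Equiv.ofBijective (Quotient.lift (s := QuotientGroup.leftRel (centralizer {g}))
      (fun x : S => (⟨x * g * x⁻¹, (hs _).mpr (isConj_iff.mpr ⟨x, rfl⟩)⟩ : s)) ?_) ⟨?_, ?_⟩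
    · intro x y hxy
      have h1 : x⁻¹ * y ∈ centralizer {g} := QuotientGroup.leftRel_apply.mp hxy
      rw [mem_centralizer_singleton_iff] at h1
      apply Subtype.ext
      change x * g * x⁻¹ = y * g * y⁻¹
      have h2 : y * g = x * (x⁻¹ * y * g) := by group
      rw [h2, h1]; group
    · intro x y
      refine Quotient.inductionOn₂ x y ?_
      intro x y hxy
      have h1 : x * g * x⁻¹ = y * g * y⁻¹ := congrArg Subtype.val hxy
      apply Quotient.sound
      change QuotientGroup.leftRel _ x y
      rw [QuotientGroup.leftRel_apply, mem_centralizer_singleton_iff]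
      have h2 : x⁻¹ * y * g = x⁻¹ * (y * g * y⁻¹) * y := by group
      rw [h2, ← h1]; group
    · rintro ⟨x, hx⟩
      obtain ⟨c, hc⟩ := isConj_iff.mp ((hs x).mp hx)
      exact ⟨Quotient.mk _ c, Subtype.ext hc⟩
  rw [Subgroup.index, Nat.card_congr e]
  simp

/-- In a finite simple group, if the index of a centralizer is a prime power, the element is
central. -/
theorem index_eq_one {S : Type*} [Group S] [Finite S] [IsSimpleGroup S] (g : S) {p a : ℕ}
    (hp : p.Prime) (hidx : (centralizer {g}).index = p ^ a) : a = 0 := by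
  classical
  have := Fintype.ofFinite S
  by_contra ha
  let s : Finset S := Finset.univ.filter (fun x => IsConj g x)
  have hs : ∀ x, x ∈ s ↔ IsConj g x := by intro x; simp [s]
  exact no_prime_power_class g s hs hp (Nat.pos_of_ne_zero ha) (by rw [card_class g s hs, hidx])

/-- A finite simple group of order `p ^ a * q ^ b` is abelian. -/
theorem simple_comm {S : Type*} [Group S] [Finite S] [IsSimpleGroup S] {p q a b : ℕ}
    (hp : p.Prime) (hq : q.Prime) (hcard : Nat.card S = p ^ a * q ^ b) :
    ∀ x y : S, x * y = y * x := by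
  classical
  have hq' : Fact q.Prime := ⟨hq⟩
  have hp' : Fact p.Prime := ⟨hp⟩
  have key : ∀ g : S, g ≠ 1 → g ∈ center S → ∀ x y : S, x * y = y * x := by
    intro g hg1 hg
    rcases (inferInstance : (center S).Normal).eq_bot_or_eq_top with h | h
    · rw [h, mem_bot] at hg; exact absurd hg hg1
    · intro x y
      have : y ∈ center S := by rw [h]; trivial
      exact mem_center_iff.mp this x
  -- find an element with prime power class
  have main : ∀ {r t c e : ℕ}, r.Prime → t.Prime → r ≠ t → Nat.card S = t ^ c * r ^ e → e ≠ 0 →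
      ∀ x y : S, x * y = y * x := by
    intro r t c e hr ht hrt hc he
    have hr' : Fact r.Prime := ⟨hr⟩
    obtain ⟨Q⟩ : Nonempty (Sylow r S) := inferInstance
    have hQcard : Nat.card Q = r ^ e := by
      rw [Q.card_eq_multiplicity, hc, Nat.factorization_mul (pow_ne_zero _ ht.ne_zero)
        (pow_ne_zero _ hr.ne_zero), ht.factorization_pow, hr.factorization_pow]
      simp [Ne.symm hrt]
    have hQnt : Nontrivial Q := by
      rw [← Finite.one_lt_card_iff_nontrivial]
      rw [hQcard]; exact Nat.one_lt_pow he hr.one_lt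
    have hcen : Nontrivial (center Q) := Q.2.center_nontrivial
    obtain ⟨z, hz1⟩ := exists_ne (1 : center Q)
    let g : S := ((z : Q) : S)
    have hg1 : g ≠ 1 := by
      intro h
      apply hz1
      apply Subtype.ext
      apply Subtype.ext
      exact h
    have hle : (Q : Subgroup S) ≤ centralizer {g} := by
      intro x hx
      rw [mem_centralizer_singleton_iff]
      have h1 := mem_center_iff.mp z.2 ⟨x, hx⟩
      exact congrArg Subtype.val h1
    have hidx : (Q : Subgroup S).index = t ^ c := by
      have h1 := (Q : Subgroup S).card_mul_index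
      have h2 : Nat.card (Q : Subgroup S) = r ^ e := hQcard
      rw [h2, hc, mul_comm] at h1
      exact Nat.eq_of_mul_eq_mul_right (pow_pos hr.pos e) h1
    have hdvd : (centralizer {g}).index ∣ t ^ c := by
      rw [← hidx]; exact Subgroup.index_dvd_of_le hle
    obtain ⟨k, _, hk⟩ := (Nat.dvd_prime_pow ht).mp hdvd
    have hk0 := index_eq_one g ht hk
    rw [hk0, pow_zero, Subgroup.index_eq_one] at hk
    apply key g hg1
    rw [mem_center_iff]
    intro x
    have hx : x ∈ centralizer {g} := by rw [hk]; trivial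
    exact mem_centralizer_singleton_iff.mp hx
  by_cases hpq : p = q
  · -- a `p`-group
    subst hpq
    have hP : IsPGroup p S := IsPGroup.of_card (n := a + b) (by rw [hcard, pow_add])
    have hcen : Nontrivial (center S) := hP.center_nontrivial
    obtain ⟨z, hz1⟩ := exists_ne (1 : center S)
    exact key z.1 (fun h => hz1 (Subtype.ext h)) z.2
  · by_cases hb : b = 0
    · by_cases ha : a = 0
      · exfalso
        rw [ha, hb] at hcard
        have h1 : Nat.card S = 1 := by simpa using hcard
        have h2 : Nontrivial S := inferInstance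
        rw [← Finite.one_lt_card_iff_nontrivial] at h2
        omega
      · exact main hp hq hpq (by rw [hcard, mul_comm]) ha
    · exact main hq hp (Ne.symm hpq) hcard hb

/-- **Burnside's theorem**: groups of order `p ^ a * q ^ b` are solvable. -/
theorem burnside {p q : ℕ} (hp : p.Prime) (hq : q.Prime) :
    ∀ (n : ℕ) (G : Type*) [Group G] [Finite G], Nat.card G = n →
      (∃ a b, n = p ^ a * q ^ b) → Group.IsSolvable G := by
  intro n
  induction n using Nat.strong_induction_on with
  | _ n ih =>
    intro G _ _ hn hab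
    by_cases hnt : Nontrivial G
    · by_cases hs : ∃ N : Subgroup G, N.Normal ∧ N ≠ ⊥ ∧ N ≠ ⊤
      · obtain ⟨N, hN, hN1, hN2⟩ := hs
        have hdiv : ∀ m, m ∣ n → ∃ a b, m = p ^ a * q ^ b := by
          intro m hm
          obtain ⟨a, b, hab⟩ := hab
          rw [hab] at hm
          obtain ⟨m₁, m₂, h1, h2, h3⟩ := (Nat.dvd_mul).mp hm
          obtain ⟨i, _, hi⟩ := (Nat.dvd_prime_pow hp).mp h1
          obtain ⟨j, _, hj⟩ := (Nat.dvd_prime_pow hq).mp h2
          exact ⟨i, j, by rw [← h3, hi, hj]⟩
        have hNcard : Nat.card N ∣ n := hn ▸ Subgroup.card_subgroup_dvd_card N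
        have hQcard : Nat.card (G ⧸ N) ∣ n :=
          hn ▸ ⟨Nat.card N, N.card_eq_card_quotient_mul_card_subgroup⟩
        have hnpos : 0 < n := hn ▸ Nat.card_pos
        have hNlt : Nat.card N < n := by
          refine lt_of_le_of_ne (Nat.le_of_dvd hnpos hNcard) ?_
          intro h
          exact hN2 (Subgroup.eq_top_of_card_eq N (by rw [h, hn]))
        have hN1' : 1 < Nat.card N := (Subgroup.one_lt_card_iff_ne_bot N).mpr hN1
        have hQlt : Nat.card (G ⧸ N) < n := by
          have h1 := N.card_eq_card_quotient_mul_card_subgroup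
          rw [hn] at h1
          have h2 : 0 < Nat.card (G ⧸ N) := Nat.card_pos
          rw [h1]
          nlinarith
        have s1 : Group.IsSolvable N := ih _ hNlt N rfl (hdiv _ hNcard)
        have s2 : Group.IsSolvable (G ⧸ N) := ih _ hQlt (G ⧸ N) rfl (hdiv _ hQcard)
        exact (Group.isSolvable_iff_subgroup_quotient N).mpr ⟨s1, s2⟩
      · push Not at hs
        have hsimple : IsSimpleGroup G := ⟨fun N hN => by
          by_cases h : N = ⊥
          · exact Or.inl h
          · exact Or.inr (hs N hN h)⟩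
        obtain ⟨a, b, hab⟩ := hab
        exact Group.isSolvable_of_comm (simple_comm hp hq (hn.trans hab))
    · have : Subsingleton G := not_nontrivial_iff_subsingleton.mp hnt
      infer_instance

end Pool.Burnside
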