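import Pool.Agent.Lib.Burnside.NT

/-!
# Burnside's theorem, matrix part
-/

set_option autoImplicit false

namespace Pool.Burnside

open Polynomial Matrix

variable {d n : ℕ}

lemma root_pow (M : Matrix (Fin d) (Fin d) ℂ) (hM : M ^ n = 1) {z : ℂ}
    (hz : z ∈ M.charpoly.roots) : z ^ n = 1 := by
  have hz' : IsRoot M.charpoly z := isRoot_of_mem_roots hz
  have h1 : z ∈ spectrum ℂ M := Matrix.mem_spectrum_iff_isRoot_charpoly.mpr hz'
  have h2 : z ^ n ∈ spectrum ℂ (M ^ n) := spectrum.pow_mem_pow M n h1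
  rw [hM] at h2
  by_contra hne
  apply h2
  rw [spectrum.mem_resolventSet_iff]
  have h3 : algebraMap ℂ (Matrix (Fin d) (Fin d) ℂ) (z ^ n) - 1 =
      algebraMap ℂ (Matrix (Fin d) (Fin d) ℂ) (z ^ n - 1) := by
    rw [map_sub, map_one]
  rw [h3]
  exact (isUnit_iff_ne_zero.mpr (sub_ne_zero.mpr hne)).map _

lemma scalar_of_roots (hn : n ≠ 0) (M : Matrix (Fin d) (Fin d) ℂ) (hM : M ^ n = 1) {α : ℂ}
    (hα : α ^ n = 1) (h : ∀ z ∈ M.charpoly.roots, z = α) :
    M = algebraMap ℂ (Matrix (Fin d) (Fin d) ℂ) α := by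
  have hsplit : M.charpoly.Splits := IsAlgClosed.splits _
  have hchar : M.charpoly = (X - C α) ^ d := by
    have h1 := hsplit.eq_prod_roots_of_monic (Matrix.charpoly_monic M)
    have h2 : M.charpoly.roots = Multiset.replicate (Multiset.card M.charpoly.roots) α :=
      Multiset.eq_replicate_card.mpr h
    have h3 : Multiset.card M.charpoly.roots = d := by
      rw [← hsplit.natDegree_eq_card_roots, Matrix.charpoly_natDegree_eq_dim, Fintype.card_fin]
    rw [h3] at h2
    rw [h1, h2]
    simp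
  -- `X ^ n - 1 = (X - α) R`
  have hroot : IsRoot (X ^ n - 1 : ℂ[X]) α := by
    simp [IsRoot, hα]
  obtain ⟨R, hR⟩ := dvd_iff_isRoot.mpr hroot
  have hRα : ¬ IsRoot R α := by
    intro hr
    have h1 : derivative (X ^ n - 1 : ℂ[X]) = (1 : ℂ[X]) * R + (X - C α) * derivative R := by
      rw [hR, derivative_mul]; simp
    have h2 := congrArg (eval α) h1
    have hr' : eval α R = 0 := hr
    rw [derivative_sub, derivative_X_pow, derivative_one, sub_zero, eval_mul, eval_add, eval_mul,
      eval_mul, hr', mul_zero, eval_sub, eval_X, eval_C, eval_C, sub_self, zero_mul, add_zero,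
      eval_pow, eval_X] at h2
    rcases mul_eq_zero.mp h2 with h2 | h2
    · exact hn (by exact_mod_cast h2)
    · have h3 : α = 0 := by
        by_contra h4
        exact pow_ne_zero _ h4 h2
      rw [h3, zero_pow hn] at hα
      exact zero_ne_one hα
  have hcop : IsCoprime ((X - C α) ^ d) R := by
    apply IsCoprime.pow_left
    rw [(irreducible_X_sub_C α).coprime_iff_not_dvd, dvd_iff_isRoot]
    exact hRα
  obtain ⟨u, v, huv⟩ := hcop
  have h1 : aeval M ((X - C α) ^ d) = 0 := by rw [← hchar]; exact Matrix.aeval_self_charpoly M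
  have h2 : aeval M (v * R) = 1 := by
    have := congrArg (aeval M) huv
    rw [map_add, map_mul, h1, mul_zero, zero_add, map_one] at this
    exact this
  have h3 : aeval M ((X - C α) * R) = 0 := by
    rw [← hR]; simp [hM]
  have h4 : aeval M (X - C α) = 0 := by
    calc aeval M (X - C α) = aeval M (X - C α) * aeval M (v * R) := by rw [h2, mul_one]
      _ = aeval M (v * ((X - C α) * R)) := by rw [← map_mul]; congr 1; ring
      _ = 0 := by rw [map_mul, h3, mul_zero]
  rw [map_sub, aeval_X, aeval_C] at h4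
  exact sub_eq_zero.mp h4

/-- traces of matrices of finite order are algebraic integers -/
lemma trace_integral (hn : n ≠ 0) (M : Matrix (Fin d) (Fin d) ℂ) (hM : M ^ n = 1) :
    IsIntegral ℤ M.trace := by
  rw [Matrix.trace_eq_sum_roots_charpoly]
  apply IsIntegral.multiset_sum
  intro z hz
  have : IsIntegral ℤ (z ^ n) := by rw [root_pow M hM hz]; exact isIntegral_one
  exact IsIntegral.of_pow (Nat.pos_of_ne_zero hn) this

/-- A matrix of finite order whose trace is non zero and such that `c * trace = d * ω` with `ω` an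
algebraic integer and `gcd (c, d) = 1` is scalar. -/
lemma scalar_of_coprime (hn : n ≠ 0) (hd : d ≠ 0) (M : Matrix (Fin d) (Fin d) ℂ) (hM : M ^ n = 1)
    {c : ℕ} (hc : Nat.Coprime c d) {ω : ℂ} (hω : IsIntegral ℤ ω)
    (h : (c : ℂ) * M.trace = d * ω) (htr : M.trace ≠ 0) :
    ∃ α : ℂ, M = algebraMap ℂ (Matrix (Fin d) (Fin d) ℂ) α := by
  have hsplit : M.charpoly.Splits := IsAlgClosed.splits _
  have hcard : Multiset.card M.charpoly.roots = d := by
    rw [← hsplit.natDegree_eq_card_roots, Matrix.charpoly_natDegree_eq_dim, Fintype.card_fin]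
  have htrint : IsIntegral ℤ M.trace := trace_integral hn M hM
  have hd' : (d : ℂ) ≠ 0 := by exact_mod_cast hd
  have hbez : ((Nat.gcd c d : ℕ) : ℤ) = c * Nat.gcdA c d + d * Nat.gcdB c d := Nat.gcd_eq_gcd_ab c d
  rw [hc] at hbez
  have hbez' : (1 : ℂ) = c * (Nat.gcdA c d : ℂ) + d * (Nat.gcdB c d : ℂ) := by exact_mod_cast hbez
  have hα : M.trace / d = (Nat.gcdA c d : ℂ) * ω + (Nat.gcdB c d : ℂ) * M.trace := by
    rw [div_eq_iff hd']
    calc M.trace = (c * (Nat.gcdA c d : ℂ) + d * (Nat.gcdB c d : ℂ)) * M.trace := by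
          rw [← hbez', one_mul]
      _ = (Nat.gcdA c d : ℂ) * ((c : ℂ) * M.trace) + (Nat.gcdB c d : ℂ) * M.trace * d := by ring
      _ = _ := by rw [h]; ring
  have hint : IsIntegral ℤ (M.trace / d) := by
    rw [hα]
    apply IsIntegral.add
    · apply IsIntegral.mul _ hω
      exact isIntegral_algebraMap (R := ℤ) (x := Nat.gcdA c d)
    · apply IsIntegral.mul _ htrint
      exact isIntegral_algebraMap (R := ℤ) (x := Nat.gcdB c d)
  have hsum : M.charpoly.roots.sum = (Multiset.card M.charpoly.roots : ℂ) * (M.trace / d) := by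
    rw [hcard, ← Matrix.trace_eq_sum_roots_charpoly, mul_div_cancel₀ _ hd']
  have hne : M.charpoly.roots ≠ 0 := by
    rw [Ne, ← Multiset.card_eq_zero, hcard]; exact hd
  rcases average_roots hn (fun z hz => root_pow M hM hz) hne hsum hint with h0 | h1
  · exfalso
    apply htr
    rw [div_eq_zero_iff] at h0
    exact h0.resolve_right hd'
  · obtain ⟨z, hz⟩ := Multiset.exists_mem_of_ne_zero hne
    have hα1 : (M.trace / d) ^ n = 1 := by rw [← h1 z hz]; exact root_pow M hM hz
    exact ⟨_, scalar_of_roots hn M hM hα1 h1⟩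

end Pool.Burnside
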