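import Mathlib

/-!
# Burnside's theorem, number theoretic part

If the average of finitely many `n`-th roots of unity is an algebraic integer, then it is `0` or
all the roots of unity are equal.
-/

set_option autoImplicit false

namespace Pool.Burnside

open Complex

/-- equality case in the triangle inequality -/
lemma eq_of_norm_sum {s : Multiset ℂ} (hs : ∀ z ∈ s, ‖z‖ = 1) {α : ℂ} (hα : ‖α‖ = 1)
    (hsum : s.sum = (Multiset.card s : ℂ) * α) : ∀ z ∈ s, z = α := by
  -- real parts of `conj α * z`
  have hre : ∀ z ∈ s, ((starRingEnd ℂ) α * z).re ≤ 1 := by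
    intro z hz
    refine (Complex.re_le_norm _).trans ?_
    rw [norm_mul, RCLike.norm_conj, hα, hs z hz, one_mul]
  have htot : (s.map (fun z => ((starRingEnd ℂ) α * z).re)).sum = Multiset.card s := by
    have h1 : (s.map (fun z => ((starRingEnd ℂ) α * z).re)).sum
        = ((starRingEnd ℂ) α * s.sum).re := by
      clear hsum hre hs
      induction s using Multiset.induction with
      | empty => simp
      | cons a s ih => simp only [Multiset.map_cons, Multiset.sum_cons, mul_add, add_re, ih]
    rw [h1, hsum]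
    have h2 : (starRingEnd ℂ) α * ((Multiset.card s : ℂ) * α) = (Multiset.card s : ℂ) := by
      have h3 : (starRingEnd ℂ) α * α = 1 := by
        rw [← Complex.normSq_eq_conj_mul_self, Complex.normSq_eq_norm_sq, hα]; simp
      calc (starRingEnd ℂ) α * ((Multiset.card s : ℂ) * α)
          = (Multiset.card s : ℂ) * ((starRingEnd ℂ) α * α) := by ring
        _ = _ := by rw [h3, mul_one]
    rw [h2]
    simp
  have hall : ∀ z ∈ s, ((starRingEnd ℂ) α * z).re = 1 := by
    by_contra hcon
    push Not at hcon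
    obtain ⟨z, hz, hne⟩ := hcon
    have hlt : ((starRingEnd ℂ) α * z).re < 1 := lt_of_le_of_ne (hre z hz) hne
    have h1 : (s.map (fun z => ((starRingEnd ℂ) α * z).re)).sum < (s.map (fun _ => (1 : ℝ))).sum :=
      Multiset.sum_lt_sum hre ⟨z, hz, hlt⟩
    rw [htot] at h1
    simp at h1
  intro z hz
  have h1 := hall z hz
  have h2 : ‖(starRingEnd ℂ) α * z‖ = 1 := by
    rw [norm_mul, RCLike.norm_conj, hα, hs z hz, one_mul]
  have h3 : (starRingEnd ℂ) α * z = 1 := by
    apply Complex.ext
    · simpa using h1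
    · have h4 : ‖(starRingEnd ℂ) α * z‖ ^ 2 = 1 := by rw [h2]; norm_num
      rw [← Complex.normSq_eq_norm_sq, Complex.normSq_apply, h1] at h4
      have h5 : ((starRingEnd ℂ) α * z).im * ((starRingEnd ℂ) α * z).im = 0 := by linarith
      simpa using mul_self_eq_zero.mp h5
  calc z = (α * (starRingEnd ℂ) α) * z := by
        rw [Complex.mul_conj, Complex.normSq_eq_norm_sq, hα]; simp
    _ = α * ((starRingEnd ℂ) α * z) := by ring
    _ = α := by rw [h3, mul_one]

/-- an algebraic integer in a number field all of whose conjugates have absolute value at most one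
and which itself has absolute value `< 1` is zero -/
lemma eq_zero_of_conj {L : Type*} [Field L] [Algebra ℚ L] [FiniteDimensional ℚ L] {x : L}
    (hx : IsIntegral ℤ x) (h1 : ∀ σ : L →ₐ[ℚ] ℂ, ‖σ x‖ ≤ 1) (σ₀ : L →ₐ[ℚ] ℂ) (h2 : ‖σ₀ x‖ < 1) :
    x = 0 := by
  classical
  have hN : algebraMap ℚ ℂ (Algebra.norm ℚ x) = ∏ σ : L →ₐ[ℚ] ℂ, σ x :=
    Algebra.norm_eq_prod_embeddings ℚ ℂ x
  have hint : IsIntegral ℤ (Algebra.norm ℚ x) := Algebra.isIntegral_norm ℚ hx
  obtain ⟨m, hm⟩ := IsIntegrallyClosed.isIntegral_iff.mp hint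
  have hlt : ‖∏ σ : L →ₐ[ℚ] ℂ, σ x‖ < 1 := by
    rw [norm_prod, ← Finset.mul_prod_erase Finset.univ _ (Finset.mem_univ σ₀)]
    have h3 : ∏ σ ∈ Finset.univ.erase σ₀, ‖σ x‖ ≤ 1 :=
      Finset.prod_le_one (fun _ _ => norm_nonneg _) (fun σ _ => h1 σ)
    calc ‖σ₀ x‖ * ∏ σ ∈ Finset.univ.erase σ₀, ‖σ x‖ ≤ ‖σ₀ x‖ * 1 :=
          mul_le_mul_of_nonneg_left h3 (norm_nonneg _)
      _ < 1 := by rw [mul_one]; exact h2
  rw [← hN, ← hm] at hlt
  have h4 : ‖((m : ℤ) : ℂ)‖ < 1 := by simpa using hlt
  rw [Complex.norm_intCast] at h4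
  have h5 : m = 0 := by
    have : |m| < 1 := by exact_mod_cast h4
    exact Int.abs_lt_one_iff.mp this
  rw [h5] at hm
  have h6 : Algebra.norm ℚ x = 0 := by rw [← hm]; simp
  exact Algebra.norm_eq_zero_iff.mp h6

/-- main number theoretic lemma -/
lemma average_roots {n : ℕ} (hn : n ≠ 0) {s : Multiset ℂ} (hs : ∀ z ∈ s, z ^ n = 1) (hs0 : s ≠ 0)
    {α : ℂ} (hsum : s.sum = (Multiset.card s : ℂ) * α) (hα : IsIntegral ℤ α) :
    α = 0 ∨ ∀ z ∈ s, z = α := by
  have hcard : (Multiset.card s : ℂ) ≠ 0 := by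
    rw [Nat.cast_ne_zero, Ne, Multiset.card_eq_zero]; exact hs0
  have hcardR : (0 : ℝ) < Multiset.card s := by
    have : 0 < Multiset.card s := Multiset.card_pos.mpr hs0
    exact_mod_cast this
  have hnorm : ∀ z ∈ s, ‖z‖ = 1 := fun z hz => Complex.norm_eq_one_of_pow_eq_one (hs z hz) hn
  have hle : ‖α‖ ≤ 1 := by
    have h1 : ‖s.sum‖ ≤ Multiset.card s := by
      refine (norm_multiset_sum_le s).trans ?_
      have : s.map (fun z => ‖z‖) = s.map (fun _ => (1 : ℝ)) := Multiset.map_congr rfl hnorm
      rw [this]; simp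
    rw [hsum, norm_mul, Complex.norm_natCast] at h1
    exact le_of_mul_le_mul_left (by linarith) hcardR
  rcases hle.lt_or_eq with hlt | heq
  · left
    -- the cyclotomic field
    set ζ : ℂ := Complex.exp (2 * Real.pi * Complex.I / n) with hζ
    have hprim : IsPrimitiveRoot ζ n := Complex.isPrimitiveRoot_exp n hn
    have hζint : IsIntegral ℚ ζ := (hprim.isIntegral (Nat.pos_of_ne_zero hn)).tower_top
    let L := IntermediateField.adjoin ℚ {ζ}
    have : FiniteDimensional ℚ L := IntermediateField.adjoin.finiteDimensional hζint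
    let ζL : L := ⟨ζ, IntermediateField.mem_adjoin_simple_self ℚ ζ⟩
    have hζL : ζL ^ n = 1 := by
      apply Subtype.ext
      exact hprim.pow_eq_one
    -- exponents
    have hex : ∀ z ∈ s, ∃ k : ℕ, ζ ^ k = z := by
      intro z hz
      have : NeZero n := ⟨hn⟩
      obtain ⟨k, _, hk⟩ := hprim.eq_pow_of_pow_eq_one (hs z hz)
      exact ⟨k, hk⟩
    choose! k hk using hex
    let sL : Multiset L := s.map (fun z => ζL ^ k z)
    have hsL : sL.map (algebraMap L ℂ) = s := by
      simp only [sL]
      rw [Multiset.map_map]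
      conv_rhs => rw [← Multiset.map_id s]
      apply Multiset.map_congr rfl
      intro z hz
      simp only [Function.comp, id]
      exact hk z hz
    let αL : L := sL.sum / (Multiset.card s : L)
    have hαL : (αL : ℂ) = α := by
      have h1 : ((sL.sum : L) : ℂ) = s.sum := by
        have := map_multiset_sum (algebraMap L ℂ) sL
        rw [show (algebraMap L ℂ) sL.sum = ((sL.sum : L) : ℂ) from rfl] at this
        rw [this, hsL]
      have h2 : (αL : ℂ) = ((sL.sum : L) : ℂ) / (Multiset.card s : ℂ) := by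
        simp [αL]
      rw [h2, h1, hsum, mul_div_cancel_left₀ _ hcard]
    have hintL : IsIntegral ℤ αL := by
      rw [← isIntegral_algebraMap_iff (algebraMap L ℂ).injective]
      rw [show algebraMap L ℂ αL = (αL : ℂ) from rfl, hαL]
      exact hα
    have hconj : ∀ σ : L →ₐ[ℚ] ℂ, ‖σ αL‖ ≤ 1 := by
      intro σ
      have h1 : σ αL = (sL.map σ).sum / (Multiset.card s : ℂ) := by
        simp only [αL]
        rw [map_div₀, map_multiset_sum, map_natCast]
      rw [h1, norm_div, Complex.norm_natCast, div_le_one hcardR]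
      refine (norm_multiset_sum_le _).trans ?_
      have h2 : (sL.map σ).map (fun z => ‖z‖) = s.map (fun _ => (1 : ℝ)) := by
        rw [Multiset.map_map, Multiset.map_map]
        apply Multiset.map_congr rfl
        intro z _
        simp only [Function.comp]
        rw [map_pow, norm_pow]
        have h3 : (σ ζL) ^ n = 1 := by rw [← map_pow, hζL, map_one]
        rw [Complex.norm_eq_one_of_pow_eq_one h3 hn, one_pow]
      rw [h2]; simp
    have h0 := eq_zero_of_conj hintL hconj (IntermediateField.val L) (by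
      change ‖(αL : ℂ)‖ < 1
      rw [hαL]; exact hlt)
    rw [← hαL, h0]
    rfl
  · right
    exact eq_of_norm_sum hnorm heq hsum

end Pool.Burnside
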