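import Pool.Agent.Lib.Burnside.Mat

/-!
# Burnside's theorem: the irreducible representations of a finite group via Wedderburn
-/

set_option autoImplicit false

namespace Pool.Burnside

open Matrix Module

lemma stdBasis_repr {d : ℕ} (N : Matrix (Fin d) (Fin d) ℂ) (a b : Fin d) :
    (Matrix.stdBasis ℂ (Fin d) (Fin d)).repr N (a, b) = N a b := by
  simp [Matrix.stdBasis, Pi.basis_repr]

/-- trace of left multiplication on a product of matrix algebras -/
lemma trace_pi_matrix {m : ℕ} {d : Fin m → ℕ} (y : Π i, Matrix (Fin (d i)) (Fin (d i)) ℂ) :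
    LinearMap.trace ℂ (Π i, Matrix (Fin (d i)) (Fin (d i)) ℂ) (LinearMap.mulLeft ℂ y) =
      ∑ i, (d i : ℂ) * (y i).trace := by
  classical
  let B := Pi.basis (fun i => Matrix.stdBasis ℂ (Fin (d i)) (Fin (d i)))
  rw [LinearMap.trace_eq_matrix_trace ℂ B, Matrix.trace, Fintype.sum_sigma]
  apply Finset.sum_congr rfl
  intro i _
  rw [Fintype.sum_prod_type]
  have h1 : ∀ a b : Fin (d i), ((LinearMap.toMatrix B B) (LinearMap.mulLeft ℂ y)).diag ⟨i, (a, b)⟩
      = y i a a := by
    intro a b
    rw [Matrix.diag_apply, LinearMap.toMatrix_apply, LinearMap.mulLeft_apply]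
    simp only [B, Pi.basis_apply, Pi.basis_repr]
    rw [stdBasis_repr, Pi.mul_apply, Pi.single_eq_same, Matrix.stdBasis_eq_single]
    simp
  simp only [h1]
  rw [Matrix.trace, Finset.mul_sum]
  apply Finset.sum_congr rfl
  intro a _
  simp [Matrix.diag_apply]

variable (S : Type*) [Group S] [Finite S]

lemma trace_group {S : Type*} [Group S] [Finite S] {g : S} (hg : g ≠ 1) :
    LinearMap.trace ℂ (MonoidAlgebra ℂ S) (LinearMap.mulLeft ℂ (MonoidAlgebra.single g 1)) = 0 := by
  classical
  have := Fintype.ofFinite S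
  rw [LinearMap.trace_eq_matrix_trace ℂ (MonoidAlgebra.basis S ℂ), Matrix.trace]
  apply Finset.sum_eq_zero
  intro i _
  rw [Matrix.diag_apply, LinearMap.toMatrix_apply, LinearMap.mulLeft_apply,
    MonoidAlgebra.basis_apply, MonoidAlgebra.single_mul_single, one_mul]
  have h1 : MonoidAlgebra.single (g * i) (1 : ℂ) = MonoidAlgebra.basis S ℂ (g * i) := by
    rw [MonoidAlgebra.basis_apply]
  rw [h1, Basis.repr_self, Finsupp.single_eq_of_ne]
  intro h
  apply hg
  exact mul_eq_right.mp h.symm

/-- The irreducible complex matrix representations of a finite group, with the properties needed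
for Burnside's theorem. -/
theorem exists_reps : ∃ (m : ℕ) (d : Fin m → ℕ) (M : ∀ i, S →* Matrix (Fin (d i)) (Fin (d i)) ℂ),
    (∀ i, d i ≠ 0) ∧ (∀ g : S, g ≠ 1 → ∑ i, (d i : ℂ) * (M i g).trace = 0) ∧
    (∀ i (s : Finset S), (∀ h, ∀ x ∈ s, h * x * h⁻¹ ∈ s) →
      ∃ ω : ℂ, IsIntegral ℤ ω ∧ ∑ x ∈ s, M i x = algebraMap ℂ _ ω) ∧
    ∃ i₀, d i₀ = 1 ∧ (∀ g, M i₀ g = 1) ∧ ∀ i, i ≠ i₀ → ∃ g, M i g ≠ 1 := by
  classical
  have := Fintype.ofFinite S
  have hne : NeZero (Nat.card S : ℂ) := ⟨by
    rw [Nat.cast_ne_zero]; exact Nat.card_pos.ne'⟩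
  have hss : IsSemisimpleRing (MonoidAlgebra ℂ S) := inferInstance
  have hfd : FiniteDimensional ℂ (MonoidAlgebra ℂ S) :=
    Module.Finite.of_basis (MonoidAlgebra.basis S ℂ)
  obtain ⟨m, d, hd, ⟨φ⟩⟩ := IsSemisimpleRing.exists_algEquiv_pi_matrix_of_isAlgClosed
    (F := ℂ) (R := MonoidAlgebra ℂ S)
  let ψ : ∀ i, MonoidAlgebra ℂ S →ₐ[ℂ] Matrix (Fin (d i)) (Fin (d i)) ℂ := fun i =>
    (Pi.evalAlgHom ℂ (fun i => Matrix (Fin (d i)) (Fin (d i)) ℂ) i).comp φ.toAlgHom
  have hψ : ∀ i x, ψ i x = φ x i := fun i x => rfl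
  let M : ∀ i, S →* Matrix (Fin (d i)) (Fin (d i)) ℂ := fun i =>
    (ψ i : MonoidAlgebra ℂ S →* Matrix (Fin (d i)) (Fin (d i)) ℂ).comp (MonoidAlgebra.of ℂ S)
  have hM : ∀ i g, M i g = φ (MonoidAlgebra.single g 1) i := fun i g => rfl
  have hd0 : ∀ i, d i ≠ 0 := fun i => (hd i).out
  have hsurj : ∀ i (N : Matrix (Fin (d i)) (Fin (d i)) ℂ), ∃ x, φ x = Pi.single i N :=
    fun i N => φ.surjective _
  -- central elements are mapped to scalars
  have hcentral : ∀ (x : MonoidAlgebra ℂ S), (∀ y, x * y = y * x) → ∀ i, ∃ ω : ℂ,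
      φ x i = algebraMap ℂ _ ω := by
    intro x hx i
    have h1 : φ x i ∈ Set.range (Matrix.scalar (Fin (d i))) := by
      rw [Matrix.mem_range_scalar_iff_commute_single']
      intro a b
      obtain ⟨y, hy⟩ := hsurj i (Matrix.single a b 1)
      have h2 := congrArg (fun z => φ z i) (hx y)
      simp only [map_mul, hy, Pi.mul_apply, Pi.single_eq_same] at h2
      exact h2.symm
    obtain ⟨ω, hω⟩ := h1
    exact ⟨ω, by rw [← hω]; rfl⟩
  -- every element of the group algebra is mapped to a combination of the `M i g`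
  have hlin : ∀ (x : MonoidAlgebra ℂ S) i,
      φ x i = ∑ g, (MonoidAlgebra.basis S ℂ).repr x g • M i g := by
    intro x i
    conv_lhs => rw [← (MonoidAlgebra.basis S ℂ).sum_repr x]
    rw [map_sum, Finset.sum_apply]
    apply Finset.sum_congr rfl
    intro g _
    rw [map_smul, Pi.smul_apply, MonoidAlgebra.basis_apply, hM]
  have haug : ∀ i, (∀ g, M i g = 1) → ∀ x, φ x i =
      (∑ g, (MonoidAlgebra.basis S ℂ).repr x g) • (1 : Matrix (Fin (d i)) (Fin (d i)) ℂ) := by
    intro i hi x
    rw [hlin, Finset.sum_smul]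
    apply Finset.sum_congr rfl
    intro g _
    rw [hi]
  have hone : ∀ i, (1 : Matrix (Fin (d i)) (Fin (d i)) ℂ) ≠ 0 := by
    intro i h
    have := congrFun (congrFun h ⟨0, Nat.pos_of_ne_zero (hd0 i)⟩) ⟨0, Nat.pos_of_ne_zero (hd0 i)⟩
    simp at this
  refine ⟨m, d, M, hd0, ?_, ?_, ?_⟩
  · intro g hg
    have h1 := trace_group hg
    have h2 := LinearMap.trace_conj' (R := ℂ) (LinearMap.mulLeft ℂ (MonoidAlgebra.single g (1 : ℂ)))
      φ.toLinearEquiv
    rw [h1] at h2
    have h3 : φ.toLinearEquiv.conj (LinearMap.mulLeft ℂ (MonoidAlgebra.single g (1 : ℂ))) =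
        LinearMap.mulLeft ℂ (φ (MonoidAlgebra.single g 1)) := by
      apply LinearMap.ext
      intro y
      rw [LinearEquiv.conj_apply_apply, LinearMap.mulLeft_apply, LinearMap.mulLeft_apply]
      change φ (MonoidAlgebra.single g 1 * φ.symm y) = _
      rw [map_mul, AlgEquiv.apply_symm_apply]
    rw [h3, trace_pi_matrix] at h2
    exact h2
  · intro i s hs
    let cC : MonoidAlgebra ℂ S := ∑ x ∈ s, MonoidAlgebra.single x 1
    have hcomm : ∀ y, cC * y = y * cC := by
      intro y
      have h1 : LinearMap.mulLeft ℂ cC = LinearMap.mulRight ℂ cC := by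
        apply (MonoidAlgebra.basis S ℂ).ext
        intro h
        rw [LinearMap.mulLeft_apply, LinearMap.mulRight_apply, MonoidAlgebra.basis_apply]
        simp only [cC]
        rw [Finset.sum_mul, Finset.mul_sum]
        simp only [MonoidAlgebra.single_mul_single, one_mul]
        refine Finset.sum_bij' (fun x _ => h⁻¹ * x * h) (fun x _ => h * x * h⁻¹) ?_ ?_ ?_ ?_ ?_
        · intro x hx
          have := hs h⁻¹ x hx
          simpa using this
        · intro x hx
          exact hs h x hx
        · intro x _; group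
        · intro x _; group
        · intro x _
          congr 1
          group
      exact LinearMap.congr_fun h1 y
    obtain ⟨ω, hω⟩ := hcentral cC hcomm i
    have hsum : φ cC i = ∑ x ∈ s, M i x := by
      simp only [cC]
      rw [map_sum, Finset.sum_apply]
      rfl
    refine ⟨ω, ?_, by rw [← hsum, hω]⟩
    -- integrality
    let F : MonoidAlgebra ℤ S →ₐ[ℤ] Matrix (Fin (d i)) (Fin (d i)) ℂ :=
      MonoidAlgebra.lift ℤ _ S (M i)
    let cZ : MonoidAlgebra ℤ S := ∑ x ∈ s, MonoidAlgebra.single x 1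
    have hF : F cZ = algebraMap ℂ _ ω := by
      rw [← hω, hsum]
      simp only [cZ, F]
      rw [map_sum]
      apply Finset.sum_congr rfl
      intro x _
      rw [MonoidAlgebra.lift_single, one_smul]
    have hfin : Module.Finite ℤ (MonoidAlgebra ℤ S) :=
      Module.Finite.of_basis (MonoidAlgebra.basis S ℤ)
    have hint : IsIntegral ℤ (F cZ) := (IsIntegral.of_finite ℤ cZ).map F
    rw [hF] at hint
    have : Nonempty (Fin (d i)) := ⟨⟨0, Nat.pos_of_ne_zero (hd0 i)⟩⟩
    exact (isIntegral_algebraMap_iff (R := ℤ)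
      (algebraMap ℂ (Matrix (Fin (d i)) (Fin (d i)) ℂ)).injective).mp hint
  · -- the trivial representation
    let e : MonoidAlgebra ℂ S := ∑ x, MonoidAlgebra.single x 1
    have he0 : e ≠ 0 := by
      intro h
      have h1 : e = ∑ x, (1 : ℂ) • MonoidAlgebra.basis S ℂ x := by
        simp [e]
      rw [h1] at h
      have h2 := Fintype.linearIndependent_iff.mp (MonoidAlgebra.basis S ℂ).linearIndependent
        (fun _ => 1) h 1
      exact one_ne_zero h2
    have hge : ∀ g : S, MonoidAlgebra.single g 1 * e = e := by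
      intro g
      simp only [e]
      rw [Finset.mul_sum]
      simp only [MonoidAlgebra.single_mul_single, one_mul]
      exact Fintype.sum_equiv (Equiv.mulLeft g) _ _ (fun x => rfl)
    have heg : ∀ g : S, e * MonoidAlgebra.single g 1 = e := by
      intro g
      simp only [e]
      rw [Finset.sum_mul]
      simp only [MonoidAlgebra.single_mul_single, mul_one]
      exact Fintype.sum_equiv (Equiv.mulRight g) _ _ (fun x => rfl)
    have hecen : ∀ y, e * y = y * e := by
      intro y
      have h1 : LinearMap.mulLeft ℂ e = LinearMap.mulRight ℂ e := by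
        apply (MonoidAlgebra.basis S ℂ).ext
        intro h
        rw [LinearMap.mulLeft_apply, LinearMap.mulRight_apply, MonoidAlgebra.basis_apply, hge, heg]
      exact LinearMap.congr_fun h1 y
    have hφe : φ e ≠ 0 := fun h => he0 (φ.injective (by rw [h, map_zero]))
    obtain ⟨i₀, hi₀⟩ : ∃ i, φ e i ≠ 0 := by
      by_contra hcon
      push Not at hcon
      exact hφe (funext hcon)
    have htriv : ∀ g, M i₀ g = 1 := by
      intro g
      obtain ⟨ω, hω⟩ := hcentral e hecen i₀
      have hω0 : ω ≠ 0 := by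
        rintro rfl
        rw [map_zero] at hω
        exact hi₀ hω
      have h1 := congrArg (fun z => φ z i₀) (hge g)
      simp only [map_mul, Pi.mul_apply] at h1
      rw [← hM, hω, Algebra.algebraMap_eq_smul_one, mul_smul_comm, mul_one] at h1
      exact smul_right_injective _ hω0 h1
    refine ⟨i₀, ?_, htriv, ?_⟩
    · by_contra hne1
      have h2 : 1 < d i₀ := by
        have := hd0 i₀
        omega
      obtain ⟨x, hx⟩ := hsurj i₀ (Matrix.single ⟨0, by omega⟩ ⟨1, h2⟩ 1)
      have h3 := haug i₀ htriv x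
      rw [hx, Pi.single_eq_same] at h3
      have h4 := congrFun (congrFun h3 ⟨0, by omega⟩) ⟨1, h2⟩
      simp at h4
    · intro i hi
      by_contra hcon
      push Not at hcon
      obtain ⟨x, hx⟩ := hsurj i 1
      have h3 := haug i hcon x
      have h4 := haug i₀ htriv x
      rw [hx, Pi.single_eq_same] at h3
      rw [hx, Pi.single_eq_of_ne (Ne.symm hi)] at h4
      have h5 : (∑ g, (MonoidAlgebra.basis S ℂ).repr x g) = 0 := by
        by_contra h6
        exact hone i₀ ((smul_eq_zero.mp h4.symm).resolve_left h6)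
      rw [h5, zero_smul] at h3
      exact hone i h3

end Pool.Burnside
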